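import Pool.Agent.H86.SM.Final

/-!
Singmaster's problem.  The number `N(t)` of occurrences of `t` in Pascal's triangle is
`O((log t)^(1/2) (loglog t)^3)`, unconditionally.
-/

namespace Pool.Agent.Results.MP_7ebaec_nt.HalfPower

theorem result : ∃ C : ℝ, ∀ t : ℕ, 2 ≤ t →
    {p : ℕ × ℕ | p.2 ≤ p.1 ∧ Nat.choose p.1 p.2 = t}.Finite ∧
    ({p : ℕ × ℕ | p.2 ≤ p.1 ∧ Nat.choose p.1 p.2 = t}.ncard : ℝ) ≤
      C * (Real.log t ^ (1 / 2 : ℝ) * (1 + Real.log (1 + Real.log t)) ^ 3) :=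
  Pool.Agent.H86.SM.final

end Pool.Agent.Results.MP_7ebaec_nt.HalfPower
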