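import Pool.Agent.H86.SM.FinalB

/-!
Singmaster's problem, restricted to the positions away from the edges.  For every `δ > 0` the number
of positions `(n, k)` of `t` in Pascal's triangle with `M ≤ k ≤ n - M` is `O((log t)^(1+δ) / M)`,
uniformly in `M ≥ 1`.
-/

namespace Pool.Agent.Results.MP_7ebaec_nt.InteriorCount

theorem result (δ : ℝ) (hδ : 0 < δ) : ∃ C : ℝ, ∀ t : ℕ, 2 ≤ t → ∀ M : ℝ, 1 ≤ M →
    {p : ℕ × ℕ | p.2 ≤ p.1 ∧ Nat.choose p.1 p.2 = t ∧ M ≤ (p.2 : ℝ) ∧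
      M ≤ (p.1 : ℝ) - (p.2 : ℝ)}.Finite ∧
    ({p : ℕ × ℕ | p.2 ≤ p.1 ∧ Nat.choose p.1 p.2 = t ∧ M ≤ (p.2 : ℝ) ∧
      M ≤ (p.1 : ℝ) - (p.2 : ℝ)}.ncard : ℝ) ≤ C * (Real.log t ^ (1 + δ) / M) :=
  Pool.Agent.H86.SM.finalB δ hδ

end Pool.Agent.Results.MP_7ebaec_nt.InteriorCount
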